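import Pool.Agent.V11152.MRh

namespace Pool.Agent.Results.MP_e79d62_co.NeverMRD

section defs

variable (k K : Type) [Field k] [Fintype k] [Field K] [Algebra k K]

/-- The code `C_{δ,s}`: all `k`-linear maps of the form
`x ↦ a x + b (x^(q^s) + δ x^(q^(4+s)))` with `a, b ∈ K`, where `q = |k|`. -/
def code (δ : K) (s : ℕ) : Submodule k (K →ₗ[k] K) where
  carrier := {g | ∃ a b : K, ∀ x : K,
    g x = a * x + b * (x ^ (Fintype.card k ^ s) + δ * x ^ (Fintype.card k ^ (4 + s)))}
  add_mem' := by
    rintro g g' ⟨a, b, h⟩ ⟨a', b', h'⟩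
    refine ⟨a + a', b + b', fun x => ?_⟩
    rw [LinearMap.add_apply, h, h']; ring
  zero_mem' := ⟨0, 0, fun x => by simp⟩
  smul_mem' := by
    rintro c g ⟨a, b, h⟩
    refine ⟨c • a, c • b, fun x => ?_⟩
    rw [LinearMap.smul_apply, h]
    simp only [Algebra.smul_def]; ring

/-- The minimum distance of a code: the least rank of a nonzero element. -/
noncomputable def minDist (C : Submodule k (K →ₗ[k] K)) : ℕ :=
  sInf {r | ∃ g ∈ C, g ≠ 0 ∧ Module.finrank k (LinearMap.range g) = r}

/-- A code of `8 × 8` matrices is MRD if equality holds in the Singleton-like bound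
`dim C ≤ 8 (8 - d + 1)`, where `d` is the minimum distance. -/
def IsMRD (C : Submodule k (K →ₗ[k] K)) : Prop :=
  Module.finrank k C = 8 * (8 - minDist k K C + 1)

end defs

section proof

variable {k K : Type} [Field k] [Fintype k] [CharP k 2] [Field K] [Algebra k K]

theorem pow_add2 [CharP K 2] (i : ℕ) (x y : K) :
    (x + y) ^ (Fintype.card k ^ i) = x ^ (Fintype.card k ^ i) + y ^ (Fintype.card k ^ i) := by
  obtain ⟨n, -, hn⟩ := FiniteField.card k 2
  rw [hn, ← pow_mul]
  exact add_pow_char_pow x y 2 _

theorem smul_pow2 (i : ℕ) (c : k) (x : K) :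
    (c • x) ^ (Fintype.card k ^ i) = c • x ^ (Fintype.card k ^ i) := by
  rw [smul_pow, FiniteField.pow_card_pow]

/-- the Frobenius power as a linear map -/
def frob [CharP K 2] (i : ℕ) : K →ₗ[k] K where
  toFun x := x ^ (Fintype.card k ^ i)
  map_add' := pow_add2 i
  map_smul' := smul_pow2 i

/-- the parametrisation of the code -/
def par [CharP K 2] (δ : K) (s : ℕ) : K × K →ₗ[k] (K →ₗ[k] K) where
  toFun p := LinearMap.mulLeft k p.1 +
    (LinearMap.mulLeft k p.2).comp (frob s + (LinearMap.mulLeft k δ).comp (frob (4 + s)))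
  map_add' p p' := by
    ext x
    simp only [LinearMap.add_apply, LinearMap.comp_apply, LinearMap.mulLeft_apply, Prod.fst_add,
      Prod.snd_add]
    ring
  map_smul' c p := by
    ext x
    show (c • p.1) * x + (c • p.2) * (frob s x + δ * frob (4 + s) x)
      = c • (p.1 * x + p.2 * (frob s x + δ * frob (4 + s) x))
    rw [smul_mul_assoc, smul_mul_assoc, smul_add]

theorem par_apply [CharP K 2] (δ : K) (s : ℕ) (p : K × K) (x : K) :
    (par (k := k) δ s p) x = p.1 * x + p.2 * (x ^ (Fintype.card k ^ s)
      + δ * x ^ (Fintype.card k ^ (4 + s))) := rfl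

theorem par_range [CharP K 2] (δ : K) (s : ℕ) :
    LinearMap.range (par (k := k) δ s) = code k K δ s := by
  ext g
  rw [LinearMap.mem_range]
  constructor
  · rintro ⟨p, rfl⟩
    exact ⟨p.1, p.2, fun x => par_apply δ s p x⟩
  · rintro ⟨a, b, h⟩
    refine ⟨(a, b), ?_⟩
    ext x
    rw [par_apply, h]

end proof

/-- Let `k` be a finite field of characteristic two with `q` elements, `K` its extension of
degree `8`, `δ ∈ K` nonzero and `s ∈ {1, 3, 5, 7}`.  Then the code `C_{δ,s}` has dimension `16`
over `k`, contains a nonzero element of rank at most `6`, and is not MRD. -/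
theorem result (k K : Type) [Field k] [Fintype k] [CharP k 2] [Field K] [Algebra k K]
    (hK : Module.finrank k K = 8) (δ : K) (hδ : δ ≠ 0) (s : ℕ)
    (hs : s = 1 ∨ s = 3 ∨ s = 5 ∨ s = 7) :
    Module.finrank k (code k K δ s) = 16 ∧
    (∃ g ∈ code k K δ s, g ≠ 0 ∧ Module.finrank k (LinearMap.range g) ≤ 6) ∧
    ¬ IsMRD k K (code k K δ s) := by
  classical
  have hfin : Module.Finite k K := Module.finite_of_finrank_pos (by rw [hK]; norm_num)
  have hfinK : Finite K := Module.finite_of_finite k
  let _ : Fintype K := Fintype.ofFinite K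
  have hchar : CharP K 2 := charP_of_injective_algebraMap (algebraMap k K).injective 2
  set q := Fintype.card k with hq
  have hcard : Fintype.card K = q ^ 8 := by
    rw [Module.card_eq_pow_finrank (K := k) (V := K), hK]
  have hq1 : 1 < q := Fintype.one_lt_card
  obtain ⟨n, -, hn⟩ := FiniteField.card k 2
  obtain ⟨j, hj⟩ : ∃ j, s = 2 * j + 1 := by
    rcases hs with rfl | rfl | rfl | rfl
    · exact ⟨0, rfl⟩
    · exact ⟨1, rfl⟩
    · exact ⟨2, rfl⟩
    · exact ⟨3, rfl⟩
  have hpow : ∀ x : K, ∀ i : ℕ, x ^ (q ^ (8 * i)) = x := by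
    intro x i
    rw [pow_mul, ← hcard]
    exact FiniteField.pow_card_pow i x
  set σ : K →+* K := iterateFrobenius K 2 (n * s) with hσd
  have hσ : ∀ x, σ x = x ^ (q ^ s) := by
    intro x
    rw [hσd, iterateFrobenius_def, hq, hn, pow_mul]
  have hσ4 : ∀ x, σ (σ (σ (σ x))) = x ^ (q ^ 4) := by
    intro x
    rw [hσ, hσ, hσ, hσ, ← pow_mul, ← pow_mul, ← pow_mul, ← pow_add, ← pow_add, ← pow_add]
    have : s + s + s + s = 8 * j + 4 := by omega
    rw [show s + (s + (s + s)) = 8 * j + 4 by omega] at *
    rw [pow_add q, pow_mul x, hpow]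
  have hσ8 : ∀ x, σ (σ (σ (σ (σ (σ (σ (σ x))))))) = x := by
    intro x
    rw [hσ4, hσ4, ← pow_mul, ← pow_add]
    exact hpow x 1
  have hσ4ne : ∃ x, σ (σ (σ (σ x))) ≠ x := by
    by_contra hno
    push Not at hno
    have h1 : (Polynomial.X ^ (q ^ 4) - Polynomial.X : Polynomial K) = 0 := by
      apply Polynomial.eq_zero_of_natDegree_lt_card_of_eval_eq_zero _ Function.injective_id
      · intro x
        have := hno x
        rw [hσ4] at this
        simp [this]
      · rw [FiniteField.X_pow_card_sub_X_natDegree_eq K (Nat.one_lt_pow (by norm_num) hq1), hcard]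
        exact Nat.pow_lt_pow_right hq1 (by norm_num)
    exact FiniteField.X_pow_card_sub_X_ne_zero K (Nat.one_lt_pow (by norm_num) hq1) h1
  have hσ5 : ∀ x, σ (σ (σ (σ (σ x)))) = x ^ (q ^ (4 + s)) := by
    intro x
    rw [hσ4, hσ, ← pow_mul, ← pow_add, add_comm s 4]
  -- the parametrisation is injective
  have hinj : Function.Injective (Pool.Agent.Results.MP_e79d62_co.NeverMRD.par (k := k) δ s) := by
    rw [← LinearMap.ker_eq_bot, LinearMap.ker_eq_bot']
    rintro ⟨a, b⟩ hp
    have h1 := V11152.MR.ded8 σ hσ8 hσ4ne (a := ![a, b, 0, 0, 0, b * δ, 0, 0]) (by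
      intro x
      have h3 : a * x + b * (x ^ (q ^ s) + δ * x ^ (q ^ (4 + s))) = 0 := by
        have := LinearMap.congr_fun hp x
        rw [par_apply] at this
        exact this
      rw [← hσ5, ← hσ] at h3
      simp only [Fin.sum_univ_eight]
      simp [pow_succ]
      linear_combination h3)
    have ha : a = 0 := h1 0
    have hb : b = 0 := h1 1
    rw [ha, hb]; rfl
  have hdim : Module.finrank k (code k K δ s) = 16 := by
    rw [← par_range, LinearMap.finrank_range_of_inj hinj, Module.finrank_prod, hK]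
  -- an element of small rank
  obtain ⟨a, x0, t, hx0, ht, e1, e2⟩ := V11152.MR.main σ hσ8 hσ4ne hδ
  rw [hσ5, hσ] at e1 e2
  set g : K →ₗ[k] K := par (k := k) δ s (a, 1) with hg
  have hgx : ∀ x, g x = a * x + (x ^ (q ^ s) + δ * x ^ (q ^ (4 + s))) := by
    intro x
    rw [hg, par_apply, one_mul]
  have hgmem : g ∈ code k K δ s := by
    rw [← par_range]; exact ⟨_, rfl⟩
  have hg0 : g ≠ 0 := by
    intro h
    have := hinj (h.trans (map_zero (par (k := k) δ s)).symm)
    exact one_ne_zero (congrArg Prod.snd this)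
  have hker : 2 ≤ Module.finrank k (LinearMap.ker g) := by
    have m1 : x0 ∈ LinearMap.ker g := by
      rw [LinearMap.mem_ker, hgx]; linear_combination e1
    have m2 : t * x0 ∈ LinearMap.ker g := by
      rw [LinearMap.mem_ker, hgx]; linear_combination e2
    have hli : LinearIndependent k ![(⟨x0, m1⟩ : LinearMap.ker g), ⟨t * x0, m2⟩] := by
      rw [LinearIndependent.pair_iff]
      intro c d h
      have h1 : c • x0 + d • (t * x0) = 0 := congrArg Subtype.val h
      simp only [Algebra.smul_def] at h1
      have h3 : algebraMap k K c + algebraMap k K d * t = 0 := by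
        have : (algebraMap k K c + algebraMap k K d * t) * x0 = 0 := by linear_combination h1
        rcases mul_eq_zero.mp this with h | h
        · exact h
        · exact absurd h hx0
      have hd : d = 0 := by
        by_contra hd0
        apply ht
        have hd1 : algebraMap k K d ≠ 0 := by simpa using hd0
        have h5 : t = algebraMap k K (-c / d) := by
          rw [map_div₀, map_neg, eq_div_iff hd1]
          linear_combination h3
        rw [hσ, h5, ← map_pow, hq, FiniteField.pow_card_pow]
      rw [hd, map_zero, zero_mul, add_zero] at h3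
      exact ⟨by simpa using h3, hd⟩
    have := hli.fintype_card_le_finrank
    simpa using this
  have hrank : Module.finrank k (LinearMap.range g) ≤ 6 := by
    have := LinearMap.finrank_range_add_finrank_ker g
    rw [hK] at this
    omega
  refine ⟨hdim, ⟨g, hgmem, hg0, hrank⟩, ?_⟩
  intro hM
  unfold IsMRD at hM
  rw [hdim] at hM
  have hmin : minDist k K (code k K δ s) ≤ 6 :=
    le_trans (Nat.sInf_le ⟨g, hgmem, hg0, rfl⟩) hrank
  omega

end Pool.Agent.Results.MP_e79d62_co.NeverMRD
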